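import Pool.Agent.X271.PermF

/-!
# Permanental ideals of generic, symmetric and Hankel matrices are not prime

For the three types of matrices of the problem and every field in which `2 ≠ 0`, the ideal
generated by the `t × t` permanents is not prime unless `t = m = n`; for Hankel matrices this is
proved when `m + n ≥ 3 t - 1`.
-/

set_option autoImplicit false

namespace Pool.Agent.Results.MP_9bc296_ag.NonPrimeThreeTypes

open Matrix Pool.Agent.X271.PR

/-- The three types of matrices of the problem. -/
inductive Kind
  | generic
  | symmetric
  | hankel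

/-- The indeterminates: the entries `(i, j)` (generic); the unordered pairs `{i, j}` (symmetric,
used for `m = n` only); `z_0, ..., z_{m + n - 2}` (Hankel). -/
def Kind.Var : Kind → ℕ → ℕ → Type
  | .generic, m, n => Fin m × Fin n
  | .symmetric, m, n => Sym2 (Fin (max m n))
  | .hankel, m, n => Fin (m + n - 1)

/-- The `m × n` matrix `X` of indeterminates of the given type: `x_{ij}` (generic),
`x_{ij} = x_{ji}` (symmetric), `x_{ij} = z_{i + j}` (Hankel, indices starting from `0`). -/
noncomputable def Kind.mat (K : Kind) (k : Type*) [Field k] (m n : ℕ) :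
    Matrix (Fin m) (Fin n) (MvPolynomial (K.Var m n) k) :=
  match K with
  | .generic => Matrix.of fun i j => MvPolynomial.X (i, j)
  | .symmetric => Matrix.of fun i j =>
      MvPolynomial.X s(Fin.castLE (le_max_left m n) i, Fin.castLE (le_max_right m n) j)
  | .hankel => Matrix.of fun i j => MvPolynomial.X ⟨i.val + j.val, by omega⟩

/-- Let `k` be a field of characteristic different from `2`, let `X` be an `m × n` matrix of
indeterminates of one of the three types (`m = n` in the symmetric case) and
`2 ≤ t ≤ min (m, n)`. If `(t, m, n) ≠ (t, t, t)` and, in the Hankel case, `3 t - 1 ≤ m + n`, then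
the ideal `P_t(X)` generated by the permanents of the `t × t` submatrices of `X` is not prime. -/
theorem result (K : Kind) {k : Type*} [Field k] (h2 : (2 : k) ≠ 0) {t m n : ℕ} (ht : 2 ≤ t)
    (hm : t ≤ m) (hn : t ≤ n) (hne : ¬ (t = m ∧ t = n)) (hS : K = .symmetric → m = n)
    (hH : K = .hankel → 3 * t - 1 ≤ m + n) :
    ¬ (permIdeal t (K.mat k m n)).IsPrime := by
  cases K with
  | generic => exact generic_not_prime h2 ht hm hn hne
  | hankel => exact hankel_not_prime h2 ht hm hn (by have := hH rfl; omega)
  | symmetric =>
    obtain rfl : m = n := hS rfl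
    obtain ⟨s, rfl⟩ : ∃ s, t = s + 2 := ⟨t - 2, by omega⟩
    exact not_prime h2 hm (by omega) (Kind.mat .symmetric k m m)
      (MvPolynomial.aeval (fun _ => (Polynomial.X : Polynomial k))).toRingHom
      (fun i j => by simp [Kind.mat])
      (MvPolynomial.aeval (fun p : Sym2 (Fin (max m m)) => Sym2.lift
        ⟨fun i j : Fin (max m m) => ev k s i j, fun i j => ev_symm s i j⟩ p)).toRingHom
      (fun i j => (MvPolynomial.aeval_X (R := k) (σ := Sym2 (Fin (max m m))) _ _).trans
        (by simp [ev]))

end Pool.Agent.Results.MP_9bc296_ag.NonPrimeThreeTypes
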